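import Mathlib
import Pool.Agent.Helper29_CF.Stmt

/-!
Basic lemmas on degrees, closed sets, components.
-/

set_option linter.unusedSectionVars false

namespace Pool.Agent.Helper29_CF.H8

open Finset

section A

variable {V B : Type} [DecidableEq V] [DecidableEq B]

lemma mem_swap_iff {F : Finset B} {f g c : B} :
    c ∈ insert g (F.erase f) ↔ c = g ∨ (c ≠ f ∧ c ∈ F) := by
  simp

lemma card_swap {F : Finset B} {f g : B} (hf : f ∈ F) (hg : g ∉ F) :
    (insert g (F.erase f)).card = F.card := by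
  rw [card_insert_of_notMem (by simp [hg]), card_erase_of_mem hf]
  have : 0 < F.card := card_pos.2 ⟨f, hf⟩
  omega

lemma deg_insert (s : B → Finset V) {F : Finset B} {g : B} (hg : g ∉ F) (x : V) :
    deg s (insert g F) x = deg s F x + (if x ∈ s g then 1 else 0) := by
  unfold deg
  rw [filter_insert]
  split_ifs with h
  · rw [card_insert_of_notMem (by simp [hg])]
  · simp

lemma deg_erase (s : B → Finset V) {F : Finset B} {f : B} (hf : f ∈ F) (x : V) :
    deg s (F.erase f) x + (if x ∈ s f then 1 else 0) = deg s F x := by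
  have := deg_insert s (F := F.erase f) (g := f) (by simp) x
  rw [insert_erase hf] at this
  omega

lemma deg_swap (s : B → Finset V) {F : Finset B} {f g : B} (hf : f ∈ F) (hg : g ∉ F) (x : V) :
    deg s (insert g (F.erase f)) x + (if x ∈ s f then 1 else 0) =
      deg s F x + (if x ∈ s g then 1 else 0) := by
  rw [deg_insert s (by simp [hg])]
  have := deg_erase s hf x
  omega

lemma deg_pos_iff (s : B → Finset V) {F : Finset B} {x : V} :
    1 ≤ deg s F x ↔ ∃ b ∈ F, x ∈ s b := by
  unfold deg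
  rw [Nat.succ_le_iff, card_pos]
  constructor
  · rintro ⟨b, hb⟩
    rw [mem_filter] at hb
    exact ⟨b, hb⟩
  · rintro ⟨b, hb⟩
    exact ⟨b, mem_filter.2 hb⟩

lemma deg_pos_of_mem (s : B → Finset V) {F : Finset B} {x : V} {b : B} (hb : b ∈ F)
    (hx : x ∈ s b) : 1 ≤ deg s F x := (deg_pos_iff s).2 ⟨b, hb, hx⟩

lemma deg_mono (s : B → Finset V) {F F' : Finset B} (h : F ⊆ F') (x : V) :
    deg s F x ≤ deg s F' x := card_le_card (filter_subset_filter _ h)

lemma priv_unique (s : B → Finset V) {F : Finset B} {x : V} {f c : B} (hx : deg s F x = 1)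
    (hf : f ∈ F) (hxf : x ∈ s f) (hc : c ∈ F) (hxc : x ∈ s c) : c = f := by
  unfold deg at hx
  rw [card_eq_one] at hx
  obtain ⟨b, hb⟩ := hx
  have h1 : f ∈ F.filter (fun b => x ∈ s b) := mem_filter.2 ⟨hf, hxf⟩
  have h2 : c ∈ F.filter (fun b => x ∈ s b) := mem_filter.2 ⟨hc, hxc⟩
  rw [hb, mem_singleton] at h1 h2
  rw [h1, h2]

lemma other_block (s : B → Finset V) {F : Finset B} {x : V} {f : B} (hx : deg s F x = 2)
    (hf : f ∈ F) (hxf : x ∈ s f) :
    ∃ e ∈ F, e ≠ f ∧ x ∈ s e ∧ ∀ c ∈ F, x ∈ s c → c = f ∨ c = e := by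
  unfold deg at hx
  rw [card_eq_two] at hx
  obtain ⟨b, b', hne, hb⟩ := hx
  have h1 : f ∈ F.filter (fun b => x ∈ s b) := mem_filter.2 ⟨hf, hxf⟩
  have hbm : b ∈ F.filter (fun b => x ∈ s b) := by rw [hb]; simp
  have hbm' : b' ∈ F.filter (fun b => x ∈ s b) := by rw [hb]; simp
  rw [mem_filter] at hbm hbm'
  have h3 : ∀ c ∈ F, x ∈ s c → c = b ∨ c = b' := by
    intro c hc hxc
    have : c ∈ F.filter (fun b => x ∈ s b) := mem_filter.2 ⟨hc, hxc⟩
    rw [hb] at this
    simpa using this
  rcases h3 f hf hxf with h | h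
  · subst h
    exact ⟨b', hbm'.1, hne.symm, hbm'.2, h3⟩
  · subst h
    refine ⟨b, hbm.1, hne, hbm.2, fun c hc hxc => (h3 c hc hxc).symm⟩

/-! ### double counting -/

lemma sum_deg (s : B → Finset V) (F : Finset B) (N : Finset V) :
    ∑ x ∈ N, deg s F x = ∑ b ∈ F, (s b ∩ N).card := by
  unfold deg
  simp_rw [card_filter]
  rw [sum_comm]
  refine sum_congr rfl fun b _ => ?_
  rw [inter_comm, ← card_filter, filter_mem_eq_inter]

/-! ### closed sets -/

lemma Closed.inter {s : B → Finset V} {F : Finset B} {W W' : Finset V} (h : Closed s F W)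
    (h' : Closed s F W') : Closed s F (W ∩ W') := by
  intro b hb
  rcases h b hb with h1 | h1
  · rcases h' b hb with h2 | h2
    · exact Or.inl (subset_inter h1 h2)
    · exact Or.inr (h2.mono_right inter_subset_right)
  · exact Or.inr (h1.mono_right inter_subset_left)

lemma Closed.sdiff {s : B → Finset V} {F : Finset B} {W W' : Finset V} (h : Closed s F W)
    (h' : Closed s F W') : Closed s F (W \ W') := by
  intro b hb
  rcases h b hb with h1 | h1
  · rcases h' b hb with h2 | h2
    · right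
      rw [disjoint_left]
      intro x hx hx'
      rw [mem_sdiff] at hx'
      exact hx'.2 (h2 hx)
    · left
      intro x hx
      rw [mem_sdiff]
      exact ⟨h1 hx, fun hxx => (disjoint_left.1 h2) hx hxx⟩
  · exact Or.inr (h1.mono_right sdiff_subset)

lemma Closed.union {s : B → Finset V} {F : Finset B} {W W' : Finset V} (h : Closed s F W)
    (h' : Closed s F W') : Closed s F (W ∪ W') := by
  intro b hb
  rcases h b hb with h1 | h1
  · exact Or.inl (h1.trans subset_union_left)
  · rcases h' b hb with h2 | h2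
    · exact Or.inl (h2.trans subset_union_right)
    · exact Or.inr (disjoint_union_right.2 ⟨h1, h2⟩)

lemma Closed.sub {s : B → Finset V} {F : Finset B} {W : Finset V} (h : Closed s F W) {b : B}
    (hb : b ∈ F) {x : V} (hx : x ∈ s b) (hxW : x ∈ W) : s b ⊆ W := by
  rcases h b hb with h1 | h1
  · exact h1
  · exact absurd hxW ((disjoint_left.1 h1) hx)

lemma IsComp.sub {s : B → Finset V} {F : Finset B} {W W' : Finset V} (h : IsComp s F W)
    (h' : Closed s F W') {x : V} (hx : x ∈ W) (hx' : x ∈ W') : W ⊆ W' := by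
  have := h.2.2 (W ∩ W') inter_subset_left ⟨x, mem_inter.2 ⟨hx, hx'⟩⟩ (Closed.inter h.2.1 h')
  rw [← this]
  exact inter_subset_right

lemma IsComp.eq {s : B → Finset V} {F : Finset B} {W W' : Finset V} (h : IsComp s F W)
    (h' : IsComp s F W') {x : V} (hx : x ∈ W) (hx' : x ∈ W') : W = W' :=
  Subset.antisymm (IsComp.sub h h'.2.1 hx hx') (IsComp.sub h' h.2.1 hx' hx)

lemma exists_comp [Fintype V] (s : B → Finset V) (F : Finset B) (x : V) :
    ∃ W, x ∈ W ∧ IsComp s F W := by
  classical
  let S : Finset (Finset V) := univ.filter (fun W => x ∈ W ∧ Closed s F W)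
  have hS : S.Nonempty := ⟨univ, by
    simp only [S, mem_filter, mem_univ, true_and]
    intro b _
    exact Or.inl (subset_univ _)⟩
  obtain ⟨W, hW, hmin⟩ := exists_min_image S (fun W => W.card) hS
  simp only [S, mem_filter, mem_univ, true_and] at hW hmin
  refine ⟨W, hW.1, ⟨x, hW.1⟩, hW.2, ?_⟩
  intro W' hsub hne hcl
  by_cases hx : x ∈ W'
  · exact eq_of_subset_of_card_le hsub (hmin W' ⟨hx, hcl⟩)
  · exfalso
    have h1 := hmin (W \ W') ⟨mem_sdiff.2 ⟨hW.1, hx⟩, Closed.sdiff hW.2 hcl⟩
    have h2 := card_sdiff_add_card_eq_card hsub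
    have h3 := hne.card_pos
    omega

/-! ### EO components -/

lemma mem_nodes {s : B → Finset V} {F : Finset B} {X : Finset V} {x : V} :
    x ∈ nodes s F X ↔ x ∈ X ∧ 2 ≤ deg s F x := by
  unfold nodes; rw [mem_filter]

/-- the structure of a block with two nodes and a private point -/
lemma block_struct {s : B → Finset V} {F : Finset B} {b : B} {p : V} (h3 : (s b).card ≤ 3)
    (hn : (nodes s F (s b)).card = 2) (hp : p ∈ s b) (hdp : deg s F p = 1) :
    ∃ u v, u ≠ v ∧ u ≠ p ∧ v ≠ p ∧ s b = {p, u, v} ∧ 2 ≤ deg s F u ∧ 2 ≤ deg s F v ∧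
      nodes s F (s b) = {u, v} := by
  obtain ⟨u, v, huv, hn'⟩ := card_eq_two.1 hn
  have hu : u ∈ nodes s F (s b) := by rw [hn']; simp
  have hv : v ∈ nodes s F (s b) := by rw [hn']; simp
  rw [mem_nodes] at hu hv
  have hup : u ≠ p := by rintro rfl; omega
  have hvp : v ≠ p := by rintro rfl; omega
  refine ⟨u, v, huv, hup, hvp, ?_, hu.2, hv.2, hn'⟩
  symm
  apply eq_of_subset_of_card_le
  · intro x hx
    simp only [mem_insert, mem_singleton] at hx
    rcases hx with rfl | rfl | rfl
    · exact hp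
    · exact hu.1
    · exact hv.1
  · have : ({p, u, v} : Finset V).card = 3 := by
      rw [card_eq_three]
      exact ⟨p, u, v, hup.symm, hvp.symm, huv, rfl⟩
    omega

end A

end Pool.Agent.Helper29_CF.H8
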