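import Mathlib
import Pool.Agent.Helper29_CF.Stmt
import Pool.Agent.Helper8_CF.Basic

/-!
Module SWAP.
-/

set_option linter.unusedSectionVars false

namespace Pool.Agent.Helper29_CF.H8

open Finset

section A

variable {V B : Type} [Fintype V] [DecidableEq V] [Fintype B] [DecidableEq B]

lemma mem_eos {s : B → Finset V} {F : Finset B} {W : Finset V} : W ∈ eos s F ↔ EO s F W := by
  classical
  unfold eos
  rw [mem_filter]
  simp

/-- an EO component of the swapped family not containing `p` is an old EO component -/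
lemma old_eo {s : B → Finset V} {F : Finset B} {Q : Finset V} {f : B} {p : V} {g : B}
    (hQ : EO s F Q) (hf : f ∈ F) (hfQ : s f ⊆ Q) (hpf : p ∈ s f) 
    (hg : g ∉ F) (hpg : p ∈ s g) {X : Finset V} (hX : EO s (insert g (F.erase f)) X)
    (hpX : p ∉ X) : EO s F X ∧ X ≠ Q := by
  have hdeg := deg_swap s hf hg
  have hgX : Disjoint (s g) X := by
    rcases hX.1.2.1 g (mem_insert_self _ _) with h | h
    · exact absurd (h hpg) hpX
    · exact h
  have hfX : Disjoint (s f) X := by
    rw [disjoint_left]
    intro a haf haX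
    have hag : a ∉ s g := fun h => (disjoint_left.1 hgX) h haX
    have h1 := hdeg a
    rw [if_pos haf, if_neg hag] at h1
    have h2 := hX.2.1 a haX
    have h3 := hQ.2.1 a (hfQ haf)
    have hd : deg s F a = 2 := by omega
    have hd' : deg s (insert g (F.erase f)) a = 1 := by omega
    obtain ⟨e, he, hae⟩ := (deg_pos_iff s).1 (le_of_eq hd'.symm)
    have heg : e ≠ g := by rintro rfl; exact hag hae
    have he' : e ≠ f ∧ e ∈ F := by
      rw [mem_swap_iff] at he
      rcases he with he | he
      · exact absurd he heg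
      · exact he
    have heX : s e ⊆ X := Closed.sub hX.1.2.1 he hae haX
    have heQ : s e ⊆ Q := Closed.sub hQ.1.2.1 he'.2 hae (hfQ haf)
    have hn1 := hX.2.2.1 e he heX
    have hn2 := hQ.2.2.1 e he'.2 heQ
    have hsub : nodes s (insert g (F.erase f)) (s e) ⊆ (nodes s F (s e)).erase a := by
      intro y hy
      rw [mem_nodes] at hy
      rw [mem_erase, mem_nodes]
      have hyg : y ∉ s g := fun h => (disjoint_left.1 hgX) h (heX hy.1)
      have h4 := hdeg y
      rw [if_neg hyg] at h4
      refine ⟨?_, hy.1, ?_⟩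
      · rintro rfl; omega
      · omega
    have h5 := card_le_card hsub
    have h6 : a ∈ nodes s F (s e) := by rw [mem_nodes]; exact ⟨hae, by omega⟩
    have h7 := card_erase_of_mem h6
    omega
  have hdX : ∀ x ∈ X, deg s (insert g (F.erase f)) x = deg s F x := by
    intro x hx
    have h1 := hdeg x
    rw [if_neg (fun h => (disjoint_left.1 hgX) h hx), if_neg (fun h => (disjoint_left.1 hfX) h hx)]
      at h1
    omega
  have hmem : ∀ b ∈ F, ∀ W ⊆ X, b ≠ f ∨ Disjoint (s f) W := by
    intro b _ W hW
    right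
    exact hfX.mono_right hW
  have hcl : ∀ W ⊆ X, Closed s F W → Closed s (insert g (F.erase f)) W := by
    intro W hW h b hb
    rw [mem_swap_iff] at hb
    rcases hb with rfl | hb
    · exact Or.inr (hgX.mono_right hW)
    · exact h b hb.2
  have hcl' : ∀ W ⊆ X, Closed s (insert g (F.erase f)) W → Closed s F W := by
    intro W hW h b hb
    by_cases hbf : b = f
    · subst hbf
      exact Or.inr (hfX.mono_right hW)
    · exact h b (by rw [mem_swap_iff]; exact Or.inr ⟨hbf, hb⟩)
  have hnod : ∀ Y ⊆ X, nodes s (insert g (F.erase f)) Y = nodes s F Y := by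
    intro Y hY
    ext y
    rw [mem_nodes, mem_nodes]
    constructor
    · rintro ⟨h1, h2⟩
      rw [hdX y (hY h1)] at h2
      exact ⟨h1, h2⟩
    · rintro ⟨h1, h2⟩
      rw [← hdX y (hY h1)] at h2
      exact ⟨h1, h2⟩
  refine ⟨⟨⟨hX.1.1, hcl' X Subset.rfl hX.1.2.1, ?_⟩, ?_, ?_, ?_⟩, ?_⟩
  · intro W hW hne hWc
    exact hX.1.2.2 W hW hne (hcl W hW hWc)
  · intro x hx
    rw [← hdX x hx]
    exact hX.2.1 x hx
  · intro b hb hbX
    have hbf : b ≠ f := by
      rintro rfl
      exact hpX (hbX hpf)
    rw [← hnod _ hbX]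
    exact hX.2.2.1 b (by rw [mem_swap_iff]; exact Or.inr ⟨hbf, hb⟩) hbX
  · rw [← hnod X Subset.rfl]
    exact hX.2.2.2
  · rintro rfl
    exact hpX (hfQ hpf)

end A

theorem swap : SwapStmt := by
  intro V B _ _ _ _ s K cap F Q f p g hS hG hQ hf hfQ hpf hdp hgK hg hpg hadm
  classical
  obtain ⟨N, hpN, hN⟩ := exists_comp s (insert g (F.erase f)) p
  have hcard := card_swap hf hg
  have hold : ∀ X, EO s (insert g (F.erase f)) X → X ≠ N → EO s F X ∧ X ≠ Q := by
    intro X hX hXN
    apply old_eo hQ hf hfQ hpf hg hpg hX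
    intro hpX
    exact hXN (IsComp.eq hX.1 hN hpX hpN)
  have hsub : (eos s (insert g (F.erase f))).erase N ⊆ (eos s F).erase Q := by
    intro X hX
    rw [mem_erase, mem_eos] at hX
    rw [mem_erase, mem_eos]
    have := hold X hX.2 hX.1
    exact ⟨this.2, this.1⟩
  have hle := hG.eo _ hadm hcard
  unfold numEO at hle
  have hQm : Q ∈ eos s F := mem_eos.2 hQ
  have h1 := card_le_card hsub
  have h2 := card_erase_of_mem hQm
  have h3 : 0 < (eos s F).card := card_pos.2 ⟨Q, hQm⟩
  have hNm : N ∈ eos s (insert g (F.erase f)) := by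
    by_contra hcon
    rw [erase_eq_of_notMem hcon] at h1
    omega
  have h4 := card_erase_of_mem hNm
  have h5 : 0 < (eos s (insert g (F.erase f))).card := card_pos.2 ⟨N, hNm⟩
  have heq : (eos s (insert g (F.erase f))).erase N = (eos s F).erase Q := by
    apply eq_of_subset_of_card_le hsub
    omega
  have hnum : numEO s (insert g (F.erase f)) = numEO s F := by
    unfold numEO
    rw [heq] at h4
    omega
  refine ⟨⟨hadm, ?_, ?_⟩, N, hpN, mem_eos.1 hNm, ?_⟩
  · intro F' hF'
    rw [hcard]
    exact hG.min F' hF'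
  · intro F' hF' hc
    rw [hnum]
    exact hG.eo F' hF' (hc.trans hcard)
  · intro W
    constructor
    · intro hW
      by_cases hWN : W = N
      · exact Or.inr hWN
      · exact Or.inl (hold W hW hWN)
    · rintro (⟨hW, hWQ⟩ | hW)
      · have : W ∈ (eos s F).erase Q := by
          rw [mem_erase, mem_eos]; exact ⟨hWQ, hW⟩
        rw [← heq, mem_erase, mem_eos] at this
        exact this.2
      · rw [hW]
        exact mem_eos.1 hNm

end Pool.Agent.Helper29_CF.H8
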