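import Mathlib
import Pool.Agent.Helper29_CF.Stmt
import Pool.Agent.Helper8_CF.Basic
import Pool.Agent.Helper8_CF.Swap

/-!
Module EXM.
-/

set_option linter.unusedSectionVars false

namespace Pool.Agent.Helper29_CF.H8

open Finset

section A

variable {V B : Type} [Fintype V] [DecidableEq V] [Fintype B] [DecidableEq B]

lemma eo_node_even {s : B → Finset V} {F : Finset B} {W : Finset V} (hW : EO s F W) {x : V}
    (hx : x ∈ W) (h2 : 2 ≤ deg s F x) : Even (deg s F x) := by
  rcases hW.2.1 x hx with h | h | h
  · omega
  · rw [h]; decide
  · rw [h]; decide

/-- the parity fact: a set `R` contained in an EO component, such that every block different from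
`g` is inside or disjoint, meets the nodes of `g` in an even number of points -/
lemma parity {s : B → Finset V} {F : Finset B} {N R : Finset V} {g : B} (hN : EO s F N)
    (hR : R ⊆ N) (hg : g ∈ F) (hcl : ∀ b ∈ F, b ≠ g → s b ⊆ R ∨ Disjoint (s b) R) :
    Even (s g ∩ nodes s F R).card := by
  have h := sum_deg s F (nodes s F R)
  have h1 : Even (∑ x ∈ nodes s F R, deg s F x) := by
    apply Finset.even_sum
    intro x hx
    rw [mem_nodes] at hx
    exact eo_node_even hN (hR hx.1) hx.2
  rw [h, ← add_sum_erase F _ hg] at h1
  have h2 : Even (∑ b ∈ F.erase g, (s b ∩ nodes s F R).card) := by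
    apply Finset.even_sum
    intro b hb
    rw [mem_erase] at hb
    rcases hcl b hb.2 hb.1 with h3 | h3
    · have h4 : s b ∩ nodes s F R = nodes s F (s b) := by
        ext y
        rw [mem_inter, mem_nodes, mem_nodes]
        constructor
        · rintro ⟨h5, _, h6⟩
          exact ⟨h5, h6⟩
        · rintro ⟨h5, h6⟩
          exact ⟨h5, h3 h5, h6⟩
      rw [h4, hN.2.2.1 b hb.2 (h3.trans hR)]
      decide
    · have h4 : s b ∩ nodes s F R = ∅ := by
        rw [← disjoint_iff_inter_eq_empty]
        apply h3.mono_right
        intro y hy
        rw [mem_nodes] at hy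
        exact hy.1
      rw [h4, card_empty]
      exact Even.zero
  rw [Nat.even_add] at h1
  exact h1.2 h2

end A

theorem exM : ExMStmt := by
  intro V B _ _ _ _ s K cap F Q f p g hS hG hQ hf hfQ hpf hdp hgK hg hpg hadm
  classical
  obtain ⟨hG', N, hpN, hNE, hiff⟩ := swap s K cap F Q f p g hS hG hQ hf hfQ hpf hdp hgK hg hpg hadm
  have hfK : f ∈ K := hG.adm.1 hf
  have hgf : g ≠ f := by rintro rfl; exact hg hf
  have hdeg := deg_swap s hf hg
  have hgN : s g ⊆ N := Closed.sub hNE.1.2.1 (mem_insert_self _ _) hpg hpN
  have hdp' : deg s (insert g (F.erase f)) p = 1 := by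
    have := hdeg p
    rw [if_pos hpf, if_pos hpg] at this
    omega
  obtain ⟨u, v, huv, hup, hvp, hsg, hu2, hv2, hng⟩ :=
    block_struct (hS.le3 g hgK) (hNE.2.2.1 g (mem_insert_self _ _) hgN) hpg hdp'
  obtain ⟨a, b, hab, hap, hbp, hsf, ha2, hb2, hnf⟩ :=
    block_struct (hS.le3 f hfK) (hQ.2.2.1 f hf hfQ) hpf hdp
  have hpQ : p ∈ Q := hfQ hpf
  have hug : u ∈ s g := by rw [hsg]; simp
  have hvg : v ∈ s g := by rw [hsg]; simp
  have hcg : (s g).card = 3 := by
    rw [hsg, card_eq_three]
    exact ⟨p, u, v, hup.symm, hvp.symm, huv, rfl⟩
  -- the fact (*)
  have hstar : ∀ R, IsComp s F R → R ≠ Q → ∀ w ∈ s g, w ∈ R → R ⊆ N ∧ (u ∈ R ↔ v ∈ R) := by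
    intro R hR hRQ w hwg hwR
    have hdis : Disjoint R Q := by
      rw [disjoint_left]
      intro y hy hy'
      exact hRQ (IsComp.eq hR hQ.1 hy hy')
    have hfR : Disjoint (s f) R := (hdis.symm).mono_left hfQ
    have hcl : Closed s F (R ∩ N) := by
      intro c hc
      by_cases hcf : c = f
      · subst hcf
        exact Or.inr (hfR.mono_right inter_subset_left)
      · have hcF' : c ∈ insert g (F.erase f) := by
          rw [mem_swap_iff]; exact Or.inr ⟨hcf, hc⟩
        rcases hR.2.1 c hc with h1 | h1
        · rcases hNE.1.2.1 c hcF' with h2 | h2
          · exact Or.inl (subset_inter h1 h2)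
          · exact Or.inr (h2.mono_right inter_subset_right)
        · exact Or.inr (h1.mono_right inter_subset_left)
    have hRN : R ⊆ N := by
      have := hR.2.2 (R ∩ N) inter_subset_left ⟨w, mem_inter.2 ⟨hwR, hgN hwg⟩⟩ hcl
      rw [← this]
      exact inter_subset_right
    refine ⟨hRN, ?_⟩
    have hpar := parity (g := g) hNE hRN (mem_insert_self _ _) (by
      intro c hc hcg
      rw [mem_swap_iff] at hc
      rcases hc with hc | hc
      · exact absurd hc hcg
      · exact hR.2.1 c hc.2)
    have hpR : p ∉ R := fun h => (disjoint_left.1 hdis) h hpQ
    by_contra hcon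
    have hone : (s g ∩ nodes s (insert g (F.erase f)) R).card = 1 := by
      by_cases huR : u ∈ R
      · have hvR : v ∉ R := fun h => hcon ⟨fun _ => h, fun _ => huR⟩
        rw [card_eq_one]
        refine ⟨u, ?_⟩
        ext y
        rw [mem_inter, mem_nodes, mem_singleton, hsg]
        simp only [mem_insert, mem_singleton]
        constructor
        · rintro ⟨hy, hyR, _⟩
          rcases hy with rfl | rfl | rfl
          · exact absurd hyR hpR
          · rfl
          · exact absurd hyR hvR
        · rintro rfl
          exact ⟨Or.inr (Or.inl rfl), huR, hu2⟩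
      · have hvR : v ∈ R := by
          by_contra h
          exact hcon ⟨fun h' => absurd h' huR, fun h' => absurd h' h⟩
        rw [card_eq_one]
        refine ⟨v, ?_⟩
        ext y
        rw [mem_inter, mem_nodes, mem_singleton, hsg]
        simp only [mem_insert, mem_singleton]
        constructor
        · rintro ⟨hy, hyR, _⟩
          rcases hy with rfl | rfl | rfl
          · exact absurd hyR hpR
          · exact absurd hyR huR
          · rfl
        · rintro rfl
          exact ⟨Or.inr (Or.inr rfl), hvR, hv2⟩
    rw [hone] at hpar
    exact absurd hpar (by decide)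
  by_cases huQ : u ∈ Q
  · -- inside
    have hvQ : v ∈ Q := by
      by_contra hvQ
      obtain ⟨R, hvR, hR⟩ := exists_comp s F v
      have hRQ : R ≠ Q := by rintro rfl; exact hvQ hvR
      have := (hstar R hR hRQ v hvg hvR).2.2 hvR
      exact hRQ (IsComp.eq hR hQ.1 this huQ)
    have hsgQ : s g ⊆ Q := by
      rw [hsg]
      intro y hy
      simp only [mem_insert, mem_singleton] at hy
      rcases hy with rfl | rfl | rfl
      · exact hpQ
      · exact huQ
      · exact hvQ
    have hclQ : Closed s (insert g (F.erase f)) Q := by
      intro c hc
      rw [mem_swap_iff] at hc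
      rcases hc with rfl | hc
      · exact Or.inl hsgQ
      · exact hQ.1.2.1 c hc.2
    have hNQ : N ⊆ Q := IsComp.sub hNE.1 hclQ hpN hpQ
    have hNeq : N = Q := by
      by_contra hne
      have hUne : (Q \ N).Nonempty := by
        rw [sdiff_nonempty]
        intro h
        exact hne (Subset.antisymm hNQ h)
      have hUcl' : Closed s (insert g (F.erase f)) (Q \ N) := Closed.sdiff hclQ hNE.1.2.1
      have hcls : ∀ c ∈ F, c ≠ f → s c ⊆ (Q \ N) ∨ Disjoint (s c) (Q \ N) := by
        intro c hc hcf
        exact hUcl' c (by rw [mem_swap_iff]; exact Or.inr ⟨hcf, hc⟩)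
      have hpar := parity (g := f) hQ sdiff_subset hf hcls
      by_cases hfd : Disjoint (s f) (Q \ N)
      · have hUcl : Closed s F (Q \ N) := by
          intro c hc
          by_cases hcf : c = f
          · subst hcf; exact Or.inr hfd
          · exact hcls c hc hcf
        have := hQ.1.2.2 (Q \ N) sdiff_subset hUne hUcl
        rw [← this] at hpQ
        exact (mem_sdiff.1 hpQ).2 hpN
      · -- both a and b are in U
        have hpU : p ∉ Q \ N := fun h => (mem_sdiff.1 h).2 hpN
        have hboth : a ∈ Q \ N ∧ b ∈ Q \ N := by
          by_contra hcon
          have hone : (s f ∩ nodes s F (Q \ N)).card = 1 := by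
            by_cases haU : a ∈ Q \ N
            · have hbU : b ∉ Q \ N := fun h => hcon ⟨haU, h⟩
              rw [card_eq_one]
              refine ⟨a, ?_⟩
              ext y
              rw [mem_inter, mem_nodes, mem_singleton, hsf]
              simp only [mem_insert, mem_singleton]
              constructor
              · rintro ⟨hy, hyR, _⟩
                rcases hy with rfl | rfl | rfl
                · exact absurd hyR hpU
                · rfl
                · exact absurd hyR hbU
              · rintro rfl
                exact ⟨Or.inr (Or.inl rfl), haU, ha2⟩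
            · have hbU : b ∈ Q \ N := by
                by_contra hbU
                apply hfd
                rw [disjoint_left, hsf]
                intro y hy
                simp only [mem_insert, mem_singleton] at hy
                rcases hy with rfl | rfl | rfl
                · exact hpU
                · exact haU
                · exact hbU
              rw [card_eq_one]
              refine ⟨b, ?_⟩
              ext y
              rw [mem_inter, mem_nodes, mem_singleton, hsf]
              simp only [mem_insert, mem_singleton]
              constructor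
              · rintro ⟨hy, hyR, _⟩
                rcases hy with rfl | rfl | rfl
                · exact absurd hyR hpU
                · exact absurd hyR haU
                · rfl
              · rintro rfl
                exact ⟨Or.inr (Or.inr rfl), hbU, hb2⟩
          rw [hone] at hpar
          exact absurd hpar (by decide)
        have haN : a ∉ N := (mem_sdiff.1 hboth.1).2
        have hbN : b ∉ N := (mem_sdiff.1 hboth.2).2
        have hcl : Closed s F (N.erase p) := by
          intro c hc
          by_cases hcf : c = f
          · subst hcf
            right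
            rw [disjoint_left, hsf]
            intro y hy
            simp only [mem_insert, mem_singleton] at hy
            rw [mem_erase]
            rcases hy with rfl | rfl | rfl
            · exact fun h => h.1 rfl
            · exact fun h => haN h.2
            · exact fun h => hbN h.2
          · have hpc : p ∉ s c := fun h => hcf (priv_unique s hdp hf hpf hc h)
            rcases hNE.1.2.1 c (by rw [mem_swap_iff]; exact Or.inr ⟨hcf, hc⟩) with h | h
            · left
              intro y hy
              rw [mem_erase]
              refine ⟨?_, h hy⟩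
              rintro rfl
              exact hpc hy
            · right
              exact h.mono_right (erase_subset _ _)
        have := hQ.1.2.2 (N.erase p) ((erase_subset _ _).trans hNQ)
          ⟨u, mem_erase.2 ⟨hup, hgN hug⟩⟩ hcl
        rw [← this] at hpQ
        exact (mem_erase.1 hpQ).1 rfl
    right
    refine ⟨hsgQ, hcg, hG', ?_⟩
    intro W
    rw [hiff W, hNeq]
    constructor
    · rintro (h | h)
      · exact h.1
      · rw [h]; exact hQ
    · intro h
      by_cases hWQ : W = Q
      · exact Or.inr hWQ
      · exact Or.inl ⟨h, hWQ⟩
  · -- another component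
    left
    obtain ⟨R, huR, hR⟩ := exists_comp s F u
    have hRQ : R ≠ Q := by rintro rfl; exact huQ huR
    obtain ⟨hRN, hst⟩ := hstar R hR hRQ u hug huR
    have hvR : v ∈ R := hst.1 huR
    have hdis : Disjoint R Q := by
      rw [disjoint_left]
      intro y hy hy'
      exact hRQ (IsComp.eq hR hQ.1 hy hy')
    have hpR : p ∉ R := fun h => (disjoint_left.1 hdis) h hpQ
    have hcl : Closed s (insert g (F.erase f)) (insert p R) := by
      intro c hc
      rw [mem_swap_iff] at hc
      rcases hc with rfl | hc
      · left
        rw [hsg]
        intro y hy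
        simp only [mem_insert, mem_singleton] at hy
        rw [mem_insert]
        rcases hy with rfl | rfl | rfl
        · exact Or.inl rfl
        · exact Or.inr huR
        · exact Or.inr hvR
      · have hpc : p ∉ s c := fun h => hc.1 (priv_unique s hdp hf hpf hc.2 h)
        rcases hR.2.1 c hc.2 with h | h
        · exact Or.inl (h.trans (subset_insert _ _))
        · right
          rw [disjoint_insert_right]
          exact ⟨hpc, h⟩
    have hNeq : N = insert p R := by
      apply Subset.antisymm
      · exact IsComp.sub hNE.1 hcl hpN (mem_insert_self _ _)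
      · intro y hy
        rw [mem_insert] at hy
        rcases hy with rfl | hy
        · exact hpN
        · exact hRN hy
    have hnot : ¬ EO s F R := by
      intro hRE
      have h1 : EO s (insert g (F.erase f)) R := (hiff R).2 (Or.inl ⟨hRE, hRQ⟩)
      have h2 : R = N := IsComp.eq h1.1 hNE.1 huR (hRN huR)
      rw [h2] at hpR
      exact hpR hpN
    refine ⟨u, v, R, huv, hup, hvp, hsg, hR, hnot, huR, hvR, hG', ?_⟩
    intro W
    rw [hiff W, hNeq]

end Pool.Agent.Helper29_CF.H8
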