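import Mathlib
import Pool.Agent.Helper29_CF.Stmt
import Pool.Agent.Helper8_CF.Basic
import Pool.Agent.Helper8_CF.Swap
import Pool.Agent.Helper8_CF.ExM

/-!
Module EXB.
-/

set_option linter.unusedSectionVars false

namespace Pool.Agent.Helper29_CF.H8

open Finset

section A

variable {V B : Type} [Fintype V] [DecidableEq V] [Fintype B] [DecidableEq B]

/-- all swaps inside `Q` are admissible, and the resulting family has `Q` as EO component -/
lemma key {s : B → Finset V} {K : Finset B} {cap : ℕ} {F : Finset B} {Q : Finset V}
    {e : B} {q : V} {g : B} (hS : Sys s K cap) (hG : Good s K cap F) (hQ : EO s F Q)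
    (he : e ∈ F) (heQ : s e ⊆ Q) (hqe : q ∈ s e) (hdq : deg s F q = 1) (hgK : g ∈ K)
    (hg : g ∉ F) (hqg : q ∈ s g) (hgQ : s g ⊆ Q) :
    (s g).card = 3 ∧ EO s (insert g (F.erase e)) Q ∧
      (∀ x ∈ s g, x ∉ s e → deg s F x = 1) ∧ (∀ x ∈ s e, x ∉ s g → deg s F x = 2) := by
  have hdeg := deg_swap s he hg
  have heK : e ∈ K := hG.adm.1 he
  have hcap : ∀ x, deg s F x ≤ cap := fun x => (hG.adm.2 x).2
  have hpos : ∀ x, 1 ≤ deg s F x := fun x => (hG.adm.2 x).1
  have hsubK : insert g (F.erase e) ⊆ K := by
    intro c hc
    rw [mem_swap_iff] at hc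
    rcases hc with rfl | hc
    · exact hgK
    · exact hG.adm.1 hc.2
  obtain ⟨a, b, hab, haq, hbq, hse, ha2, hb2, hnf⟩ :=
    block_struct (hS.le3 e heK) (hQ.2.2.1 e he heQ) hqe hdq
  have hadm : Adm s K cap (insert g (F.erase e)) := by
    refine ⟨hsubK, fun x => ⟨?_, ?_⟩⟩
    · have h1 := hdeg x
      by_cases hxe : x ∈ s e
      · rw [if_pos hxe] at h1
        rw [hse] at hxe
        simp only [mem_insert, mem_singleton] at hxe
        rcases hxe with rfl | rfl | rfl
        · rw [if_pos hqg] at h1
          omega
        · omega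
        · omega
      · rw [if_neg hxe] at h1
        have := hpos x
        omega
    · rcases hS.hcap with hc | hc
      · have h1 := hdeg x
        by_cases hxg : x ∈ s g
        · have h2 := hQ.2.1 x (hgQ hxg)
          have h3 := hcap x
          rw [if_pos hxg] at h1
          omega
        · rw [if_neg hxg] at h1
          have h3 := hcap x
          omega
      · exact (deg_mono s hsubK x).trans (hc x)
  rcases exM s K cap F Q e q g hS hG hQ he heQ hqe hdq hgK hg hqg hadm with h | h
  · exfalso
    obtain ⟨u, v, R, huv, hup, hvp, hsg, hR, hnot, huR, hvR, _, _⟩ := h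
    have hug : u ∈ s g := by rw [hsg]; simp
    have : R = Q := IsComp.eq hR hQ.1 huR (hgQ hug)
    rw [this] at hnot
    exact hnot hQ
  · obtain ⟨_, hc3, _, hEO⟩ := h
    have hQ' : EO s (insert g (F.erase e)) Q := (hEO Q).2 hQ
    refine ⟨hc3, hQ', ?_, ?_⟩
    · intro x hxg hxe
      have h1 := hdeg x
      rw [if_pos hxg, if_neg hxe] at h1
      have h2 := hQ.2.1 x (hgQ hxg)
      have h3 := hQ'.2.1 x (hgQ hxg)
      omega
    · intro x hxe hxg
      have h1 := hdeg x
      rw [if_pos hxe, if_neg hxg] at h1
      have h2 := hQ.2.1 x (heQ hxe)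
      have h3 := hQ'.2.1 x (heQ hxe)
      omega

/-- the other block at a point which loses its degree has its private point in `g` -/
lemma repair {s : B → Finset V} {F : Finset B} {Q : Finset V} {e h : B} {g : B} {x : V}
    (hQ : EO s F Q) (he : e ∈ F) (hg : g ∉ F) (hQ' : EO s (insert g (F.erase e)) Q)
    (hxe : x ∈ s e) (hxg : x ∉ s g) (hdx : deg s F x = 2) (hh : h ∈ F) (hhe : h ≠ e)
    (hxh : x ∈ s h) (hhQ : s h ⊆ Q) : ∃ z ∈ s h, z ∈ s g ∧ deg s F z = 1 := by
  by_contra hcon
  push Not at hcon
  have hdeg := deg_swap s he hg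
  have h1 := hQ.2.2.1 h hh hhQ
  have h2 := hQ'.2.2.1 h (by rw [mem_swap_iff]; exact Or.inr ⟨hhe, hh⟩) hhQ
  have hsub : nodes s (insert g (F.erase e)) (s h) ⊆ (nodes s F (s h)).erase x := by
    intro y hy
    rw [mem_nodes] at hy
    rw [mem_erase, mem_nodes]
    refine ⟨?_, hy.1, ?_⟩
    · rintro rfl
      have h3 := hdeg y
      rw [if_pos hxe, if_neg hxg] at h3
      omega
    · by_contra hlt
      have hp := deg_pos_of_mem s hh hy.1
      have hd : deg s F y = 1 := by omega
      have hyg : y ∉ s g := fun hyg => hcon y hy.1 hyg hd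
      have h3 := hdeg y
      rw [if_neg hyg] at h3
      omega
  have h3 := card_le_card hsub
  have h4 : x ∈ nodes s F (s h) := by rw [mem_nodes]; exact ⟨hxh, by omega⟩
  have h5 := card_erase_of_mem h4
  omega

/-- two blocks sharing two nodes of degree two are impossible -/
lemma no_two {s : B → Finset V} {K : Finset B} {cap : ℕ} {F : Finset B} {Q : Finset V}
    (hS : Sys s K cap) (hF : F ⊆ K)
    {f e : B} (hQ : EO s F Q) (hf : f ∈ F) (he : e ∈ F) (hfe : f ≠ e) (hfQ : s f ⊆ Q)
    {a b p z : V} (hsf : s f = {p, a, b}) (hse : s e = {z, a, b}) (hab : a ≠ b)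
    (hdp : deg s F p = 1) (hdz : deg s F z = 1) (ha : deg s F a = 2) (hb : deg s F b = 2) :
    False := by
  have hpf : p ∈ s f := by rw [hsf]; simp
  have haf : a ∈ s f := by rw [hsf]; simp
  have hbf : b ∈ s f := by rw [hsf]; simp
  have hze : z ∈ s e := by rw [hse]; simp
  have hae : a ∈ s e := by rw [hse]; simp
  have hbe : b ∈ s e := by rw [hse]; simp
  have hothA : ∀ c ∈ F, a ∈ s c → c = f ∨ c = e := by
    obtain ⟨e', he', hne, hae', hall⟩ := other_block s ha hf haf
    rcases hall e he hae with h | h
    · exact absurd h.symm hfe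
    · rw [h]; exact hall
  have hothB : ∀ c ∈ F, b ∈ s c → c = f ∨ c = e := by
    obtain ⟨e', he', hne, hae', hall⟩ := other_block s hb hf hbf
    rcases hall e he hbe with h | h
    · exact absurd h.symm hfe
    · rw [h]; exact hall
  have hcl : Closed s F (s f ∪ s e) := by
    intro c hc
    by_cases hcf : c = f
    · subst hcf; exact Or.inl subset_union_left
    by_cases hce : c = e
    · subst hce; exact Or.inl subset_union_right
    right
    rw [disjoint_right]
    intro y hy hyc
    rw [mem_union, hsf, hse] at hy
    simp only [mem_insert, mem_singleton] at hy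
    rcases hy with (rfl | rfl | rfl) | (rfl | rfl | rfl)
    · exact hcf (priv_unique s hdp hf hpf hc hyc)
    · rcases hothA c hc hyc with h | h
      · exact hcf h
      · exact hce h
    · rcases hothB c hc hyc with h | h
      · exact hcf h
      · exact hce h
    · exact hce (priv_unique s hdz he hze hc hyc)
    · rcases hothA c hc hyc with h | h
      · exact hcf h
      · exact hce h
    · rcases hothB c hc hyc with h | h
      · exact hcf h
      · exact hce h
  have heQ : s e ⊆ Q := Closed.sub hQ.1.2.1 he hae (hfQ haf)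
  have hQeq := hQ.1.2.2 (s f ∪ s e) (union_subset hfQ heQ) ⟨p, mem_union_left _ hpf⟩ hcl
  have hodd := hQ.2.2.2
  have hn : nodes s F Q = {a, b} := by
    ext y
    rw [mem_nodes, ← hQeq, mem_union, hsf, hse]
    simp only [mem_insert, mem_singleton]
    constructor
    · rintro ⟨(rfl | rfl | rfl) | (rfl | rfl | rfl), h2⟩
      · omega
      · exact Or.inl rfl
      · exact Or.inr rfl
      · omega
      · exact Or.inl rfl
      · exact Or.inr rfl
    · rintro (rfl | rfl)
      · exact ⟨Or.inl (Or.inr (Or.inl rfl)), by omega⟩
      · exact ⟨Or.inl (Or.inr (Or.inr rfl)), by omega⟩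
  rw [hn, card_pair hab] at hodd
  exact absurd hodd (by decide)

/-- case (ii) -/
lemma case_two {s : B → Finset V} {K : Finset B} {cap : ℕ} {F : Finset B} {Q : Finset V}
    {f : B} {p : V} {g : B} (hS : Sys s K cap) (hG : Good s K cap F) (hQ : EO s F Q)
    (hf : f ∈ F) (hfQ : s f ⊆ Q) (hdp : deg s F p = 1) (hgK : g ∈ K)
    (hg : g ∉ F) (hpg : p ∈ s g) (hgQ : s g ⊆ Q) {a b : V} (hab : a ≠ b) (hap : a ≠ p)
    (hbp : b ≠ p) (hsf : s f = {p, a, b}) (ha2 : 2 ≤ deg s F a) (hb2 : 2 ≤ deg s F b)
    (hag : a ∈ s g) (hbg : b ∉ s g) :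
    ∃ a ∈ s f, a ∈ s g ∧ deg s F a = 4 ∧ ∀ b ∈ s f, b ≠ a → deg s F b ≤ 2 := by
  have hpf : p ∈ s f := by rw [hsf]; simp
  have haf : a ∈ s f := by rw [hsf]; simp
  have hbf : b ∈ s f := by rw [hsf]; simp
  obtain ⟨hc3, hQ', hA, hB⟩ := key hS hG hQ hf hfQ hpf hdp hgK hg hpg hgQ
  have hdb := hB b hbf hbg
  obtain ⟨e, he, hef, hbe, _⟩ := other_block s hdb hf hbf
  have heQ : s e ⊆ Q := Closed.sub hQ.1.2.1 he hbe (hfQ hbf)
  obtain ⟨z, hze, hzg, hdz⟩ := repair hQ hf hg hQ' hbf hbg hdb he hef hbe heQ
  obtain ⟨_, _, hA2, _⟩ := key hS hG hQ he heQ hze hdz hgK hg hzg hgQ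
  have hae : a ∈ s e := by
    by_contra hae
    have := hA2 a hag hae
    omega
  have hza : z ≠ a := by rintro rfl; omega
  have hzb : z ≠ b := by rintro rfl; omega
  have hse : s e = {z, a, b} := by
    symm
    apply eq_of_subset_of_card_le
    · intro y hy
      simp only [mem_insert, mem_singleton] at hy
      rcases hy with rfl | rfl | rfl
      · exact hze
      · exact hae
      · exact hbe
    · have h1 : ({z, a, b} : Finset V).card = 3 := by
        rw [card_eq_three]
        exact ⟨z, a, b, hza, hzb, hab, rfl⟩
      have h2 := hS.le3 e (hG.adm.1 he)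
      omega
  have hda : deg s F a = 4 := by
    rcases hQ.2.1 a (hfQ haf) with h | h | h
    · omega
    · exact (no_two hS hG.adm.1 hQ hf he hef.symm hfQ hsf hse hab hdp hdz h hdb).elim
    · exact h
  refine ⟨a, haf, hag, hda, ?_⟩
  intro y hy hya
  rw [hsf] at hy
  simp only [mem_insert, mem_singleton] at hy
  rcases hy with rfl | rfl | rfl
  · omega
  · exact absurd rfl hya
  · omega

lemma card3_of {s : Finset V} {x y z : V} (hs : s.card ≤ 3) (hx : x ∈ s) (hy : y ∈ s)
    (hz : z ∈ s) (hxy : x ≠ y) (hxz : x ≠ z) (hyz : y ≠ z) : s = {x, y, z} := by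
  symm
  apply eq_of_subset_of_card_le
  · intro w hw
    simp only [mem_insert, mem_singleton] at hw
    rcases hw with rfl | rfl | rfl
    · exact hx
    · exact hy
    · exact hz
  · have h1 : ({x, y, z} : Finset V).card = 3 := by
      rw [card_eq_three]
      exact ⟨x, y, z, hxy, hxz, hyz, rfl⟩
    omega

/-- four blocks forming a Pasch -/
lemma pasch_of {s : B → Finset V} {f ea eb g : B} {p a b x u v : V}
    (hsf : s f = {p, a, b}) (hsa : s ea = {u, a, x}) (hsb : s eb = {v, b, x})
    (hsg : s g = {p, u, v}) (hpa : p ≠ a) (hpb : p ≠ b) (hpx : p ≠ x) (hpu : p ≠ u)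
    (hpv : p ≠ v) (hab : a ≠ b) (hax : a ≠ x) (hau : a ≠ u) (hav : a ≠ v) (hbx : b ≠ x)
    (hbu : b ≠ u) (hbv : b ≠ v) (hxu : x ≠ u) (hxv : x ≠ v) (huv : u ≠ v) :
    Pasch s {g, f, ea, eb} := by
  have hgf : g ≠ f := by
    rintro rfl
    rw [hsf] at hsg
    have : a ∈ ({p, u, v} : Finset V) := by rw [← hsg]; simp
    simp only [mem_insert, mem_singleton] at this
    rcases this with h | h | h
    · exact hpa h.symm
    · exact hau h
    · exact hav h
  have hgea : g ≠ ea := by
    rintro rfl
    rw [hsa] at hsg
    have : a ∈ ({p, u, v} : Finset V) := by rw [← hsg]; simp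
    simp only [mem_insert, mem_singleton] at this
    rcases this with h | h | h
    · exact hpa h.symm
    · exact hau h
    · exact hav h
  have hgeb : g ≠ eb := by
    rintro rfl
    rw [hsb] at hsg
    have : b ∈ ({p, u, v} : Finset V) := by rw [← hsg]; simp
    simp only [mem_insert, mem_singleton] at this
    rcases this with h | h | h
    · exact hpb h.symm
    · exact hbu h
    · exact hbv h
  have hfea : f ≠ ea := by
    rintro rfl
    rw [hsf] at hsa
    have : b ∈ ({u, a, x} : Finset V) := by rw [← hsa]; simp
    simp only [mem_insert, mem_singleton] at this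
    rcases this with h | h | h
    · exact hbu h
    · exact hab h.symm
    · exact hbx h
  have hfeb : f ≠ eb := by
    rintro rfl
    rw [hsf] at hsb
    have : a ∈ ({v, b, x} : Finset V) := by rw [← hsb]; simp
    simp only [mem_insert, mem_singleton] at this
    rcases this with h | h | h
    · exact hav h
    · exact hab h
    · exact hax h
  have heab : ea ≠ eb := by
    rintro rfl
    rw [hsa] at hsb
    have : a ∈ ({v, b, x} : Finset V) := by rw [← hsb]; simp
    simp only [mem_insert, mem_singleton] at this
    rcases this with h | h | h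
    · exact hav h
    · exact hab h
    · exact hax h
  have hfilter : ∀ y, deg s {g, f, ea, eb} y = (if y ∈ s g then 1 else 0) +
      (if y ∈ s f then 1 else 0) + (if y ∈ s ea then 1 else 0) +
      (if y ∈ s eb then 1 else 0) := by
    intro y
    unfold deg
    rw [card_filter, sum_insert (by simp [hgf, hgea, hgeb]), sum_insert (by simp [hfea, hfeb]),
      sum_insert (by simp [heab]), sum_singleton]
    ring
  have c3 : ∀ {x y z : V}, x ≠ y → x ≠ z → y ≠ z → ({x, y, z} : Finset V).card = 3 := by
    intro x y z h1 h2 h3
    rw [card_eq_three]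
    exact ⟨x, y, z, h1, h2, h3, rfl⟩
  have i1 : s g ∩ s f = {p} := by
    ext y; rw [mem_inter, hsg, hsf]; simp only [mem_insert, mem_singleton]
    constructor
    · rintro ⟨rfl | rfl | rfl, h⟩
      · rfl
      · rcases h with h | h | h
        · exact h
        · exact absurd h.symm hau
        · exact absurd h.symm hbu
      · rcases h with h | h | h
        · exact h
        · exact absurd h.symm hav
        · exact absurd h.symm hbv
    · rintro rfl; exact ⟨Or.inl rfl, Or.inl rfl⟩
  have i2 : s g ∩ s ea = {u} := by
    ext y; rw [mem_inter, hsg, hsa]; simp only [mem_insert, mem_singleton]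
    constructor
    · rintro ⟨rfl | rfl | rfl, h⟩
      · rcases h with h | h | h
        · exact h
        · exact absurd h hpa
        · exact absurd h hpx
      · rfl
      · rcases h with h | h | h
        · exact h
        · exact absurd h.symm hav
        · exact absurd h.symm hxv
    · rintro rfl; exact ⟨Or.inr (Or.inl rfl), Or.inl rfl⟩
  have i3 : s g ∩ s eb = {v} := by
    ext y; rw [mem_inter, hsg, hsb]; simp only [mem_insert, mem_singleton]
    constructor
    · rintro ⟨rfl | rfl | rfl, h⟩
      · rcases h with h | h | h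
        · exact h
        · exact absurd h hpb
        · exact absurd h hpx
      · rcases h with h | h | h
        · exact h
        · exact absurd h.symm hbu
        · exact absurd h.symm hxu
      · rfl
    · rintro rfl; exact ⟨Or.inr (Or.inr rfl), Or.inl rfl⟩
  have i4 : s f ∩ s ea = {a} := by
    ext y; rw [mem_inter, hsf, hsa]; simp only [mem_insert, mem_singleton]
    constructor
    · rintro ⟨rfl | rfl | rfl, h⟩
      · rcases h with h | h | h
        · exact absurd h hpu
        · exact h
        · exact absurd h hpx
      · rfl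
      · rcases h with h | h | h
        · exact absurd h hbu
        · exact h
        · exact absurd h hbx
    · rintro rfl; exact ⟨Or.inr (Or.inl rfl), Or.inr (Or.inl rfl)⟩
  have i5 : s f ∩ s eb = {b} := by
    ext y; rw [mem_inter, hsf, hsb]; simp only [mem_insert, mem_singleton]
    constructor
    · rintro ⟨rfl | rfl | rfl, h⟩
      · rcases h with h | h | h
        · exact absurd h hpv
        · exact h
        · exact absurd h hpx
      · rcases h with h | h | h
        · exact absurd h hav
        · exact h
        · exact absurd h hax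
      · rfl
    · rintro rfl; exact ⟨Or.inr (Or.inr rfl), Or.inr (Or.inl rfl)⟩
  have i6 : s ea ∩ s eb = {x} := by
    ext y; rw [mem_inter, hsa, hsb]; simp only [mem_insert, mem_singleton]
    constructor
    · rintro ⟨rfl | rfl | rfl, h⟩
      · rcases h with h | h | h
        · exact absurd h huv
        · exact absurd h.symm hbu
        · exact h
      · rcases h with h | h | h
        · exact absurd h hav
        · exact absurd h hab
        · exact h
      · rfl
    · rintro rfl; exact ⟨Or.inr (Or.inr rfl), Or.inr (Or.inr rfl)⟩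
  refine ⟨?_, ?_, ?_, ?_⟩
  · rw [card_insert_of_notMem (by simp [hgf, hgea, hgeb]),
      card_insert_of_notMem (by simp [hfea, hfeb]), card_pair heab]
  · intro c hc
    simp only [mem_insert, mem_singleton] at hc
    rcases hc with rfl | rfl | rfl | rfl
    · rw [hsg]; exact c3 hpu hpv huv
    · rw [hsf]; exact c3 hpa hpb hab
    · rw [hsa]; exact c3 hau.symm hxu.symm hax
    · rw [hsb]; exact c3 hbv.symm hxv.symm hbx
  · intro c hc c' hc' hne
    simp only [mem_insert, mem_singleton] at hc hc'
    rcases hc with rfl | rfl | rfl | rfl <;> rcases hc' with rfl | rfl | rfl | rfl <;>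
      first
      | exact absurd rfl hne
      | (rw [i1, card_singleton])
      | (rw [i2, card_singleton])
      | (rw [i3, card_singleton])
      | (rw [i4, card_singleton])
      | (rw [i5, card_singleton])
      | (rw [i6, card_singleton])
      | (rw [inter_comm, i1, card_singleton])
      | (rw [inter_comm, i2, card_singleton])
      | (rw [inter_comm, i3, card_singleton])
      | (rw [inter_comm, i4, card_singleton])
      | (rw [inter_comm, i5, card_singleton])
      | (rw [inter_comm, i6, card_singleton])
  · intro y
    rw [hfilter y, hsg, hsf, hsa, hsb]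
    simp only [mem_insert, mem_singleton]
    by_cases h1 : y = p
    · subst h1; right; simp [hpa, hpb, hpx, hpu, hpv]
    by_cases h2 : y = a
    · subst h2; right; simp [hab, hax, hau, hav, hpa.symm]
    by_cases h3 : y = b
    · subst h3; right; simp [hab.symm, hbx, hbu, hbv, hpb.symm]
    by_cases h4 : y = x
    · subst h4; right; simp [hax.symm, hbx.symm, hpx.symm, hxu, hxv]
    by_cases h5 : y = u
    · subst h5; right; simp [hau.symm, hbu.symm, hpu.symm, hxu.symm, huv]
    by_cases h6 : y = v
    · subst h6; right; simp [hav.symm, hbv.symm, hpv.symm, hxv.symm, huv.symm]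
    left
    simp [h1, h2, h3, h4, h5, h6]

end A

theorem exB : ExBStmt := by
  intro V B _ _ _ _ s K cap F Q f p g hS hG hQ hf hfQ hpf hdp hgK hg hpg hgQ
  obtain ⟨hc3, hQ', hA, hB⟩ := key hS hG hQ hf hfQ hpf hdp hgK hg hpg hgQ
  obtain ⟨a, b, hab, hap, hbp, hsf, ha2, hb2, hnf⟩ :=
    block_struct (hS.le3 f (hG.adm.1 hf)) (hQ.2.2.1 f hf hfQ) hpf hdp
  have haf : a ∈ s f := by rw [hsf]; simp
  have hbf : b ∈ s f := by rw [hsf]; simp
  by_cases hag : a ∈ s g
  · by_cases hbg : b ∈ s g
    · left
      rw [hsf]
      exact card3_of (le_of_eq hc3) hpg hag hbg hap.symm hbp.symm hab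
    · right; right
      exact case_two hS hG hQ hf hfQ hdp hgK hg hpg hgQ hab hap hbp hsf ha2 hb2 hag hbg
  · by_cases hbg : b ∈ s g
    · right; right
      have hsf' : s f = {p, b, a} := by
        rw [hsf]; ext y; simp only [mem_insert, mem_singleton]; tauto
      exact case_two hS hG hQ hf hfQ hdp hgK hg hpg hgQ hab.symm hbp hap hsf' hb2 ha2 hbg hag
    · -- case (iii)
      right; left
      have hda := hB a haf hag
      have hdb := hB b hbf hbg
      obtain ⟨ea, hea, heaf, haea, hallA⟩ := other_block s hda hf haf
      obtain ⟨eb, heb, hebf, hbeb, hallB⟩ := other_block s hdb hf hbf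
      have heaQ : s ea ⊆ Q := Closed.sub hQ.1.2.1 hea haea (hfQ haf)
      have hebQ : s eb ⊆ Q := Closed.sub hQ.1.2.1 heb hbeb (hfQ hbf)
      obtain ⟨u, huea, hug, hdu⟩ := repair hQ hf hg hQ' haf hag hda hea heaf haea heaQ
      obtain ⟨v, hveb, hvg, hdv⟩ := repair hQ hf hg hQ' hbf hbg hdb heb hebf hbeb hebQ
      have hau : a ≠ u := by rintro rfl; omega
      have hav : a ≠ v := by rintro rfl; omega
      have hbu : b ≠ u := by rintro rfl; omega
      have hbv : b ≠ v := by rintro rfl; omega
      have hbea : b ∉ s ea := by
        intro hbea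
        have hsea : s ea = {u, a, b} :=
          card3_of (hS.le3 ea (hG.adm.1 hea)) huea haea hbea hau.symm hbu.symm hab
        exact no_two hS hG.adm.1 hQ hf hea heaf.symm hfQ hsf hsea hab hdp hdu hda hdb
      have heab : ea ≠ eb := by rintro rfl; exact hbea hbeb
      have huv : u ≠ v := by
        rintro rfl
        exact heab (priv_unique s hdu heb hveb hea huea)
      have hpu : p ≠ u := by
        rintro rfl
        exact heaf (priv_unique s hdp hf hpf hea huea)
      have hpv : p ≠ v := by
        rintro rfl
        exact hebf (priv_unique s hdp hf hpf heb hveb)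
      have hsg : s g = {p, u, v} := card3_of (le_of_eq hc3) hpg hug hvg hpu hpv huv
      -- the third point of ea
      obtain ⟨c, x', hcx, hcu, hx'u, hsea0, hc2, hx'2, _⟩ :=
        block_struct (hS.le3 ea (hG.adm.1 hea)) (hQ.2.2.1 ea hea heaQ) huea hdu
      obtain ⟨x, hax, hxu, hsea, hx2⟩ :
          ∃ x, a ≠ x ∧ x ≠ u ∧ s ea = {u, a, x} ∧ 2 ≤ deg s F x := by
        have haea' := haea
        rw [hsea0] at haea'
        simp only [mem_insert, mem_singleton] at haea'
        rcases haea' with h | h | h
        · exact absurd h hau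
        · subst h
          exact ⟨x', hcx, hx'u, hsea0, hx'2⟩
        · subst h
          refine ⟨c, hcx.symm, hcu, ?_, hc2⟩
          rw [hsea0]; ext y; simp only [mem_insert, mem_singleton]; tauto
      have hxea : x ∈ s ea := by rw [hsea]; simp
      have hpx : p ≠ x := by rintro rfl; omega
      have hxv : x ≠ v := by rintro rfl; omega
      have hxb : b ≠ x := by rintro rfl; exact hbea hxea
      have hxg : x ∉ s g := by
        rw [hsg]
        simp only [mem_insert, mem_singleton]
        rintro (h | h | h)
        · exact hpx h.symm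
        · exact hxu h
        · exact hxv h
      obtain ⟨_, hQ2, _, hB2⟩ := key hS hG hQ hea heaQ huea hdu hgK hg hug hgQ
      have hdx := hB2 x hxea hxg
      obtain ⟨h, hh, hhea, hxh, hallX⟩ := other_block s hdx hea hxea
      have hhQ : s h ⊆ Q := Closed.sub hQ.1.2.1 hh hxh (heaQ hxea)
      obtain ⟨z, hzh, hzg, hdz⟩ := repair hQ hea hg hQ2 hxea hxg hdx hh hhea hxh hhQ
      have hheb : h = eb := by
        rw [hsg] at hzg
        simp only [mem_insert, mem_singleton] at hzg
        rcases hzg with rfl | rfl | rfl
        · exfalso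
          have : h = f := priv_unique s hdz hf hpf hh hzh
          subst this
          rw [hsf] at hxh
          simp only [mem_insert, mem_singleton] at hxh
          rcases hxh with h' | h' | h'
          · exact hpx h'.symm
          · exact hax h'.symm
          · exact hxb h'.symm
        · exact absurd (priv_unique s hdz hea huea hh hzh) hhea
        · exact priv_unique s hdz heb hveb hh hzh
      rw [hheb] at hxh hhea
      have hseb : s eb = {v, b, x} :=
        card3_of (hS.le3 eb (hG.adm.1 heb)) hveb hbeb hxh hbv.symm hxv.symm hxb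
      -- the blocks inside Q
      have hallX' : ∀ c ∈ F, x ∈ s c → c = ea ∨ c = eb := by
        intro c hc hxc
        rw [← hheb]
        exact hallX c hc hxc
      have hcases : ∀ c ∈ F, ∀ y ∈ s c, y ∈ s f ∪ s ea ∪ s eb → c = f ∨ c = ea ∨ c = eb := by
        intro c hc y hyc hy
        rw [mem_union, mem_union, hsf, hsea, hseb] at hy
        simp only [mem_insert, mem_singleton] at hy
        rcases hy with ((rfl | rfl | rfl) | (rfl | rfl | rfl)) | (rfl | rfl | rfl)
        · exact Or.inl (priv_unique s hdp hf hpf hc hyc)
        · rcases hallA c hc hyc with h' | h'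
          · exact Or.inl h'
          · exact Or.inr (Or.inl h')
        · rcases hallB c hc hyc with h' | h'
          · exact Or.inl h'
          · exact Or.inr (Or.inr h')
        · exact Or.inr (Or.inl (priv_unique s hdu hea huea hc hyc))
        · rcases hallA c hc hyc with h' | h'
          · exact Or.inl h'
          · exact Or.inr (Or.inl h')
        · rcases hallX' c hc hyc with h' | h'
          · exact Or.inr (Or.inl h')
          · exact Or.inr (Or.inr h')
        · exact Or.inr (Or.inr (priv_unique s hdv heb hveb hc hyc))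
        · rcases hallB c hc hyc with h' | h'
          · exact Or.inl h'
          · exact Or.inr (Or.inr h')
        · rcases hallX' c hc hyc with h' | h'
          · exact Or.inr (Or.inl h')
          · exact Or.inr (Or.inr h')
      have hcl : Closed s F (s f ∪ s ea ∪ s eb) := by
        intro c hc
        by_cases hd : Disjoint (s c) (s f ∪ s ea ∪ s eb)
        · exact Or.inr hd
        · rw [not_disjoint_iff] at hd
          obtain ⟨y, hyc, hy⟩ := hd
          left
          rcases hcases c hc y hyc hy with rfl | rfl | rfl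
          · exact subset_union_left.trans subset_union_left
          · exact subset_union_right.trans subset_union_left
          · exact subset_union_right
      have hQeq := hQ.1.2.2 (s f ∪ s ea ∪ s eb) (union_subset (union_subset hfQ heaQ) hebQ)
        ⟨p, mem_union_left _ (mem_union_left _ hpf)⟩ hcl
      have hins : insert g (inside s F Q) = {g, f, ea, eb} := by
        have : inside s F Q = {f, ea, eb} := by
          ext c
          unfold inside
          rw [mem_filter]
          simp only [mem_insert, mem_singleton]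
          constructor
          · rintro ⟨hc, hcQ⟩
            obtain ⟨y, hy⟩ := hS.ne c (hG.adm.1 hc)
            have hyQ := hcQ hy
            rw [← hQeq] at hyQ
            exact hcases c hc y hy hyQ
          · rintro (rfl | rfl | rfl)
            · exact ⟨hf, hfQ⟩
            · exact ⟨hea, heaQ⟩
            · exact ⟨heb, hebQ⟩
        rw [this]
      rw [hins]
      exact pasch_of hsf hsea hseb hsg hap.symm hbp.symm hpx hpu hpv hab hax hau hav hxb hbu
        hbv hxu hxv huv

end Pool.Agent.Helper29_CF.H8
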