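import Mathlib
import Pool.Agent.Helper29_CF.Stmt
import Pool.Agent.Helper8_CF.ExM
import Pool.Agent.Helper8_CF.ExB

/-!
The exchange lemma.
-/

namespace Pool.Agent.Helper29_CF.H8

open Finset

theorem exch : ExchStmt := by
  intro V B _ _ _ _ s K cap F Q f p g hS hG hQ hf hfQ hpf hdp hgK hg hpg hadm
  rcases exM s K cap F Q f p g hS hG hQ hf hfQ hpf hdp hgK hg hpg hadm with h | h
  · exact Or.inl h
  · exact Or.inr ⟨h.1, h.2.1, h.2.2.1, h.2.2.2,
      exB s K cap F Q f p g hS hG hQ hf hfQ hpf hdp hgK hg hpg h.1⟩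

end Pool.Agent.Helper29_CF.H8
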